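import Pool.Agent.NKM.ASM
import Pool.Agent.NKM.Fin

set_option autoImplicit false
open scoped Manifold ContDiff
open Pool.Agent.NKM

namespace Pool.Agent.Results.MP_87f2fd_gt.ZeroMass

/-- There is a compact connected Hermitian manifold `(X, ω)`, of dimension three, for which the
infimum `T(X, ω)` of the Monge-Ampere volumes of smooth `ω`-plurisubharmonic functions is zero. -/
theorem result : ∃ (X : Type) (_ : TopologicalSpace X) (_ : T2Space X) (_ : CompactSpace X)
    (_ : ConnectedSpace X) (_ : ChartedSpace (Fin 3 → ℂ) X)
    (_ : IsManifold 𝓘(ℂ, Fin 3 → ℂ) ω X) (_ : MeasurableSpace X) (_ : BorelSpace X)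
    (g : HermitianMetric 3 X), infMass g = 0 :=
  ⟨X3, inferInstance, inferInstance, inferInstance, inferInstance, inferInstance, inferInstance,
    inferInstance, inferInstance, gmet, assembly analytic_core⟩

end Pool.Agent.Results.MP_87f2fd_gt.ZeroMass
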